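import Mathlib
import Pool.Agent.Helper12.Sp.Small
import Pool.Agent.Helper12.Sp.Spectral

/-!
Every element of the compact symplectic group `Sp(n)`, `n ≥ 2`, is a product of five involutions.
Here `Sp(n)` is the group of unitary `2n × 2n` complex matrices `A` with `Aᵀ J A = J`,
`J = (0, 1; -1, 0)`.
-/

open Matrix

open Pool.Agent.Helper12.Spn in
theorem Pool.Agent.Results.MP_8dad81_al.FiveInvolutions.result
    {n : ℕ} (hn : 2 ≤ n) (A : Matrix (Fin n ⊕ Fin n) (Fin n ⊕ Fin n) ℂ)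
    (hA : A ∈ Matrix.unitaryGroup (Fin n ⊕ Fin n) ℂ)
    (hJ : Aᵀ * Matrix.fromBlocks 0 1 (-1) 0 * A = Matrix.fromBlocks 0 1 (-1) 0) :
    ∃ B : Fin 5 → Matrix (Fin n ⊕ Fin n) (Fin n ⊕ Fin n) ℂ,
      (∀ i, B i ∈ Matrix.unitaryGroup (Fin n ⊕ Fin n) ℂ ∧
        (B i)ᵀ * Matrix.fromBlocks 0 1 (-1) 0 * B i = Matrix.fromBlocks 0 1 (-1) 0 ∧
        B i * B i = 1) ∧
      A = B 0 * B 1 * B 2 * B 3 * B 4 := by
  have hS : InSp A := ⟨Matrix.mem_unitaryGroup_iff.mp hA, hJ⟩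
  obtain ⟨g, a, hg, ha, hAg⟩ := exists_diag hS
  have h5 : PI 5 A := by
    rw [hAg]
    exact (all5_fin n hn a ha).conj hg
  obtain ⟨B0, C0, h0, ⟨B1, C1, h1, ⟨B2, C2, h2, ⟨B3, C3, h3, ⟨B4, C4, h4, h5', rfl⟩, rfl⟩, rfl⟩,
    rfl⟩, rfl⟩ := h5
  have h5'' : C4 = 1 := h5'
  refine ⟨![B0, B1, B2, B3, B4], ?_, ?_⟩
  · have key : ∀ B : Matrix (Fin n ⊕ Fin n) (Fin n ⊕ Fin n) ℂ, Inv B →
        B ∈ Matrix.unitaryGroup (Fin n ⊕ Fin n) ℂ ∧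
        Bᵀ * Matrix.fromBlocks 0 1 (-1) 0 * B = Matrix.fromBlocks 0 1 (-1) 0 ∧ B * B = 1 :=
      fun B hB => ⟨Matrix.mem_unitaryGroup_iff.mpr hB.1.1, hB.1.2, hB.2⟩
    intro i
    fin_cases i
    · exact key B0 h0
    · exact key B1 h1
    · exact key B2 h2
    · exact key B3 h3
    · exact key B4 h4
  · rw [h5'', Matrix.mul_one]
    simp only [Matrix.cons_val]
    noncomm_ring
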